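import Pool.Agent.Q2.RP.Uni

set_option autoImplicit false
set_option linter.unusedSectionVars false

open MvPolynomial AlgebraicGeometry CategoryTheory Pool.Agent.H920R2

universe u v

namespace Pool.Agent.Q2.RP

/-- Being a variety with a resolution is invariant under isomorphism. -/
theorem conclusion_congr {k : Type u} [Field k] {A A' : Type u} [CommRing A] [CommRing A']
    [IsDomain A'] [Algebra k A] [Algebra k A'] (e : A ≃ₐ[k] A')
    (h : IsVariety (X := Spec (CommRingCat.of A))
        (Spec.map (CommRingCat.ofHom (algebraMap k A))) ∧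
      HasResolution (X := Spec (CommRingCat.of A))
        (Spec.map (CommRingCat.ofHom (algebraMap k A)))) :
    IsVariety (X := Spec (CommRingCat.of A'))
        (Spec.map (CommRingCat.ofHom (algebraMap k A'))) ∧
      HasResolution (X := Spec (CommRingCat.of A'))
        (Spec.map (CommRingCat.ofHom (algebraMap k A'))) := by
  obtain ⟨⟨_, _, h1, _⟩, h2⟩ := h
  rw [HasRingHomProperty.Spec_iff (P := @LocallyOfFiniteType)] at h1
  have h3 : Algebra.FiniteType k A := RingHom.finiteType_algebraMap.1 h1
  have h4 : Algebra.FiniteType k A' := h3.equiv e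
  exact ⟨isVariety_spec, hasResolution_congr e h2⟩

/-- Subalgebras which correspond under an isomorphism. -/
noncomputable def subEquiv {k : Type u} [Field k] {B B' : Type v} [CommRing B] [CommRing B']
    [Algebra k B] [Algebra k B'] (φ : B ≃ₐ[k] B') (C : Subalgebra k B) (C' : Subalgebra k B')
    (h : ∀ b, b ∈ C ↔ φ b ∈ C') : C ≃ₐ[k] C' :=
  (φ.subalgebraMap C).trans (Subalgebra.equivOfEq _ _ (by
    ext b
    constructor
    · rintro ⟨a, ha, rfl⟩
      exact (h a).1 ha
    · intro hb
      refine ⟨φ.symm b, (h _).2 ?_, φ.apply_symm_apply b⟩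
      rw [φ.apply_symm_apply]
      exact hb))

end Pool.Agent.Q2.RP
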