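import Mathlib
import Pool.Agent.W548.Sh.Flip

/-!
# Half systems of elementary abelian groups: separation and balanced kernels of characters
-/

set_option autoImplicit false

namespace Pool.Agent.Q2.RP

open Finset Pool.Agent.W548.Sh

section comb

variable {Γ : Type} [CommGroup Γ] [Fintype Γ] (c : Γ)

theorem inv_eq (hsq : ∀ x : Γ, x * x = 1) (x : Γ) : x⁻¹ = x :=
  inv_eq_of_mul_eq_one_left (hsq x)

theorem pow_two_one (hsq : ∀ x : Γ, x * x = 1) (x : Γ) : x ^ 2 = 1 := by
  rw [pow_two, hsq]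

open Classical in
/-- The half systems stable under `τ`. -/
noncomputable def Stable (c τ : Γ) : Finset (Finset Γ) :=
  (Halves (fun x : Γ => c * x)).filter (fun T => ∀ x, x ∈ T ↔ τ * x ∈ T)

theorem mem_Stable {c τ : Γ} {T : Finset Γ} : T ∈ Stable c τ ↔
    (∀ x, x ∈ T ↔ c * x ∉ T) ∧ ∀ x, x ∈ T ↔ τ * x ∈ T := by
  classical
  unfold Stable
  rw [Finset.mem_filter, mem_Halves]

/-- The elements whose translations preserve or reverse all stable half systems. -/
def rig (c τ : Γ) (hsq : ∀ x : Γ, x * x = 1) : Subgroup Γ where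
  carrier := {k | (∀ T ∈ Stable c τ, ∀ x, x ∈ T ↔ k * x ∈ T) ∨
    (∀ T ∈ Stable c τ, ∀ x, x ∈ T ↔ k * x ∉ T)}
  one_mem' := Or.inl fun T _ x => by rw [one_mul]
  mul_mem' := by
    intro a b ha hb
    rcases ha with ha | ha <;> rcases hb with hb | hb
    · left
      intro T hT x
      rw [hb T hT x, ha T hT (b * x), mul_assoc]
    · right
      intro T hT x
      rw [hb T hT x, ha T hT (b * x), mul_assoc]
    · right
      intro T hT x
      rw [hb T hT x, ha T hT (b * x), mul_assoc]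
    · left
      intro T hT x
      rw [hb T hT x, ha T hT (b * x), mul_assoc, not_not]
  inv_mem' := by
    intro a ha
    rwa [inv_eq hsq]

theorem card_rig (hsq : ∀ x : Γ, x * x = 1) {c τ : Γ} (hc : c ≠ 1) (hτ : τ ≠ 1) (hτc : τ ≠ c) :
    4 ≤ Nat.card (rig c τ hsq) := by
  classical
  have h1 : (1 : Γ) ∈ rig c τ hsq := Subgroup.one_mem _
  have h2 : τ ∈ rig c τ hsq := Or.inl fun T hT x => (mem_Stable.1 hT).2 x
  have h3 : c ∈ rig c τ hsq := Or.inr fun T hT x => (mem_Stable.1 hT).1 x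
  have h4 : c * τ ∈ rig c τ hsq := Subgroup.mul_mem _ h3 h2
  have h5 : c * τ ≠ 1 := by
    intro h
    apply hτc
    have := hsq c
    exact mul_left_cancel (h.trans this.symm)
  have h6 : c * τ ≠ τ := by
    intro h
    exact hc (mul_eq_right.1 h)
  have h7 : c * τ ≠ c := by
    intro h
    exact hτ (mul_eq_left.1 h)
  have h8 : ({1, τ, c, c * τ} : Finset Γ).card = 4 := by
    rw [Finset.card_insert_of_notMem, Finset.card_insert_of_notMem, Finset.card_insert_of_notMem,
      Finset.card_singleton]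
    · rw [Finset.mem_singleton]
      exact fun h => h7 h.symm
    · rw [Finset.mem_insert, Finset.mem_singleton]
      rintro (h | h)
      · exact hτc h
      · exact h6 h.symm
    · rw [Finset.mem_insert, Finset.mem_insert, Finset.mem_singleton]
      rintro (h | h | h)
      · exact hτ h.symm
      · exact hc h.symm
      · exact h5 h.symm
  rw [← h8]
  have h9 : (({1, τ, c, c * τ} : Finset Γ) : Set Γ) ⊆ (rig c τ hsq : Set Γ) := by
    intro x hx
    rw [Finset.mem_coe, Finset.mem_insert, Finset.mem_insert, Finset.mem_insert,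
      Finset.mem_singleton] at hx
    rcases hx with rfl | rfl | rfl | rfl
    · exact h1
    · exact h2
    · exact h3
    · exact h4
  have h10 := Set.ncard_le_ncard h9 (Set.toFinite _)
  rw [Set.ncard_coe_finset] at h10
  exact h10

theorem card_Stable (hsq : ∀ x : Γ, x * x = 1) {c τ : Γ} (hc : c ≠ 1) (hτ : τ ≠ 1) (hτc : τ ≠ c)
    (g : ℕ) (hg : Fintype.card Γ = 2 * g) : (Stable c τ).card ≤ 2 ^ (g / 2) := by
  classical
  have h4 := card_rig hsq hc hτ hτc
  set K := rig c τ hsq with hK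
  have hidx : Nat.card (Γ ⧸ K) ≤ g / 2 := by
    have h1 := K.index_mul_card
    have h0 : Nat.card Γ = 2 * g := by rw [Nat.card_eq_fintype_card, hg]
    rw [h0] at h1
    change Nat.card (Γ ⧸ K) * Nat.card K = 2 * g at h1
    rw [Nat.le_div_iff_mul_le (by norm_num)]
    nlinarith
  have hfin : Fintype.card (Γ ⧸ K) ≤ g / 2 := by rwa [← Nat.card_eq_fintype_card]
  refine le_trans ?_ (Nat.pow_le_pow_right (by norm_num) hfin)
  have h5 : Fintype.card (Finset (Γ ⧸ K)) = 2 ^ Fintype.card (Γ ⧸ K) := Fintype.card_finset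
  rw [← h5, ← Finset.card_univ]
  refine Finset.card_le_card_of_injOn (fun T => univ.filter (fun q : Γ ⧸ K => q.out ∈ T))
    (fun T _ => Finset.mem_coe.2 (Finset.mem_univ _)) ?_
  intro T hT T' hT' h
  have hT := Finset.mem_coe.1 hT
  have hT' := Finset.mem_coe.1 hT'
  have h6 : ∀ q : Γ ⧸ K, q.out ∈ T ↔ q.out ∈ T' := by
    intro q
    have h7 := Finset.ext_iff.1 h q
    simpa using h7
  ext y
  have h8 : ((y : Γ ⧸ K).out)⁻¹ * y ∈ K := by
    rw [← QuotientGroup.eq, QuotientGroup.out_eq']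
  set x := (y : Γ ⧸ K).out with hx
  have h9 : y = (x⁻¹ * y) * x := by
    rw [mul_comm, mul_inv_cancel_left]
  rcases h8 with h8 | h8
  · rw [h9, ← h8 T hT, ← h8 T' hT']
    exact h6 _
  · have h10 := h8 T hT x
    have h11 := h8 T' hT' x
    rw [← h9] at h10 h11
    have h12 := h6 (y : Γ ⧸ K)
    rw [← hx] at h12
    tauto

open Classical in
/-- The half systems which are stable under some nontrivial translation. -/
noncomputable def NonSep (c : Γ) : Finset (Finset Γ) :=
  (Halves (fun x : Γ => c * x)).filter (fun T => ∃ τ, τ ≠ 1 ∧ ∀ x, x ∈ T ↔ τ * x ∈ T)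

theorem card_NonSep (hsq : ∀ x : Γ, x * x = 1) {c : Γ} (hc : c ≠ 1)
    (g : ℕ) (hg : Fintype.card Γ = 2 * g) : (NonSep c).card ≤ 2 * g * 2 ^ (g / 2) := by
  classical
  have h1 : NonSep c ⊆ (univ.filter (fun τ : Γ => τ ≠ 1 ∧ τ ≠ c)).biUnion (fun τ => Stable c τ) := by
    intro T hT
    unfold NonSep at hT
    rw [Finset.mem_filter] at hT
    obtain ⟨hT, τ, hτ, h⟩ := hT
    rw [Finset.mem_biUnion]
    refine ⟨τ, ?_, mem_Stable.2 ⟨mem_Halves.1 hT, h⟩⟩
    rw [Finset.mem_filter]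
    refine ⟨Finset.mem_univ _, hτ, ?_⟩
    rintro rfl
    have h2 := mem_Halves.1 hT 1
    have h3 := h 1
    tauto
  refine (Finset.card_le_card h1).trans (Finset.card_biUnion_le.trans ?_)
  refine (Finset.sum_le_card_nsmul _ _ (2 ^ (g / 2)) ?_).trans ?_
  · intro τ hτ
    rw [Finset.mem_filter] at hτ
    exact card_Stable hsq hc hτ.2.1 hτ.2.2 g hg
  · rw [smul_eq_mul]
    refine Nat.mul_le_mul_right _ ?_
    rw [← hg, ← Finset.card_univ]
    exact Finset.card_le_card (Finset.filter_subset _ _)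

/-- The sum of a nontrivial character vanishes. -/
theorem sum_char (χ : Γ →* ℤˣ) (hχ : χ c = -1) : ∑ x, ((χ x : ℤˣ) : ℤ) = 0 := by
  have h1 : ∑ x, ((χ x : ℤˣ) : ℤ) = ∑ x, ((χ (c * x) : ℤˣ) : ℤ) :=
    (Equiv.sum_comp (Equiv.mulLeft c) (fun x => ((χ x : ℤˣ) : ℤ))).symm
  have h2 : ∀ x, ((χ (c * x) : ℤˣ) : ℤ) = - ((χ x : ℤˣ) : ℤ) := by
    intro x
    rw [map_mul, hχ, neg_one_mul, Units.val_neg]
  rw [Finset.sum_congr rfl (fun x _ => h2 x), Finset.sum_neg_distrib] at h1
  linarith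

theorem two_ite (χ : Γ →* ℤˣ) (x : Γ) (v : ℤ) :
    2 * (if χ x = 1 then v else 0) = (1 + ((χ x : ℤˣ) : ℤ)) * v := by
  rcases Int.units_eq_one_or (χ x) with h | h
  · rw [h, if_pos rfl, Units.val_one]
    ring
  · rw [h, if_neg (by decide), Units.val_neg, Units.val_one]
    ring

theorem card_ker (χ : Γ →* ℤˣ) (hχ : χ c = -1) (g : ℕ) (hg : Fintype.card Γ = 2 * g) :
    Nat.card χ.ker = g := by
  classical
  have h1 : (Nat.card χ.ker : ℤ) = ∑ x, (if χ x = 1 then (1 : ℤ) else 0) := by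
    rw [Finset.sum_boole, Nat.card_eq_fintype_card, Fintype.card_subtype]
    simp only [MonoidHom.mem_ker]
  have h2 : 2 * (Nat.card χ.ker : ℤ) = 2 * g := by
    rw [h1, Finset.mul_sum, Finset.sum_congr rfl (fun x _ => two_ite χ x 1)]
    simp only [mul_one, Finset.sum_add_distrib]
    rw [sum_char c χ hχ, add_zero, Finset.sum_const, Finset.card_univ, hg, nsmul_eq_mul, mul_one]
    push_cast
    ring
  have h3 : (Nat.card χ.ker : ℤ) = g := by linarith
  exact_mod_cast h3

theorem even_g (hsq : ∀ x : Γ, x * x = 1) (χ : Γ →* ℤˣ) (hχ : χ c = -1) (g : ℕ)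
    (hg : Fintype.card Γ = 2 * g) (h2 : 2 ≤ g) : ∃ m, g = 2 * m := by
  classical
  have h1 := card_ker c χ hχ g hg
  have h3 : 1 < Nat.card χ.ker := by omega
  have h4 : Nontrivial χ.ker := Finite.one_lt_card_iff_nontrivial.1 h3
  obtain ⟨τ, hτ⟩ := exists_ne (1 : χ.ker)
  have h5 : orderOf τ = 2 := by
    apply orderOf_eq_prime _ hτ
    apply Subtype.ext
    rw [Subgroup.coe_pow, Subgroup.coe_one, pow_two_one hsq]
  have h6 := orderOf_dvd_natCard τ
  rw [h5, h1] at h6
  obtain ⟨m, hm⟩ := h6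
  exact ⟨m, hm⟩

open Classical in
/-- The kernel of the character is balanced with respect to all translates. -/
theorem balanced {T : Finset Γ} (hT : T ∈ Halves (fun x : Γ => c * x)) (χ : Γ →* ℤˣ)
    (hχ : χ c = -1) (h0 : ∑ x ∈ T, ((χ x : ℤˣ) : ℤ) = 0) (h : Γ) :
    ∑ x : χ.ker, (if h * (x : Γ) ∈ T then (1 : ℤ) else -1) = 0 := by
  have hs : ∀ x, sgn T (c * x) = - sgn T x := fun x => sgn_inv hT x
  have h1 : ∑ x, sgn T x = 0 := by
    have h2 : ∑ x, sgn T x = ∑ x, sgn T (c * x) :=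
      (Equiv.sum_comp (Equiv.mulLeft c) (fun x => sgn T x)).symm
    rw [Finset.sum_congr rfl (fun x _ => hs x), Finset.sum_neg_distrib] at h2
    linarith
  have h3 : ∑ x, ((χ x : ℤˣ) : ℤ) * sgn T x = 0 := by
    have h4 : ∀ x, ((χ x : ℤˣ) : ℤ) * sgn T x =
        2 * (if x ∈ T then ((χ x : ℤˣ) : ℤ) else 0) - ((χ x : ℤˣ) : ℤ) := by
      intro x
      unfold sgn
      split_ifs <;> ring
    rw [Finset.sum_congr rfl (fun x _ => h4 x), Finset.sum_sub_distrib, ← Finset.mul_sum,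
      sum_char c χ hχ, ← Finset.sum_filter, Finset.filter_mem_eq_inter, Finset.univ_inter, h0]
    ring
  have h5 : ∑ x : χ.ker, (if h * (x : Γ) ∈ T then (1 : ℤ) else -1) =
      ∑ x, (if χ x = 1 then sgn T (h * x) else 0) := by
    rw [← Finset.sum_filter]
    refine (Finset.sum_subtype (univ.filter fun x => χ x = 1) (fun x => ?_)
      (fun x => sgn T (h * x))).symm
    rw [Finset.mem_filter, MonoidHom.mem_ker]
    exact ⟨fun h => h.2, fun h => ⟨Finset.mem_univ _, h⟩⟩
  have h6 : 2 * ∑ x, (if χ x = 1 then sgn T (h * x) else 0) = 0 := by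
    rw [Finset.mul_sum, Finset.sum_congr rfl (fun x _ => two_ite χ x (sgn T (h * x)))]
    simp only [add_mul, one_mul, Finset.sum_add_distrib]
    have h7 : ∑ x, sgn T (h * x) = 0 := by
      rw [← h1]
      exact Equiv.sum_comp (Equiv.mulLeft h) (fun x => sgn T x)
    have h8 : ∑ x, ((χ x : ℤˣ) : ℤ) * sgn T (h * x) = 0 := by
      have h9 : ∑ x, ((χ (h * x) : ℤˣ) : ℤ) * sgn T (h * x) = 0 := by
        rw [← h3]
        exact Equiv.sum_comp (Equiv.mulLeft h) (fun x => ((χ x : ℤˣ) : ℤ) * sgn T x)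
      simp only [map_mul, Units.val_mul, mul_assoc] at h9
      rw [← Finset.mul_sum] at h9
      rcases mul_eq_zero.1 h9 with h10 | h10
      · exact absurd h10 (Units.ne_zero _)
      · exact h10
    rw [h7, h8, add_zero]
  rw [h5]
  linarith

end comb

end Pool.Agent.Q2.RP
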