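import Pool.Agent.H519R3.RE.X9

set_option autoImplicit false
set_option linter.unusedSectionVars false

open MvPolynomial AlgebraicGeometry CategoryTheory Pool.Agent.H920R2 Pool.Agent.H519R3.RS
open Pool.Agent.H519R3.RE

universe u v

namespace Pool.Agent.Q2.RP

/-- The polynomial ring in the coordinates `x i` and `y t`. -/
abbrev PB (k : Type u) [Field k] (n m : ℕ) := MvPolynomial (Fin n ⊕ Fin m) k

section grp

variable {k : Type u} [Field k] {n m : ℕ} {Γ : Type} [Group Γ]
  (A : Γ →* (PB k n m →ₐ[k] PB k n m))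

lemma A_mul (g h : Γ) (b : PB k n m) : A (g * h) b = A g (A h b) := by
  rw [map_mul]; rfl

lemma A_one (b : PB k n m) : A 1 b = b := by
  rw [map_one]; rfl

/-- The invariants of a subgroup. -/
noncomputable def inv (H : Subgroup Γ) : Subalgebra k (PB k n m) where
  carrier := {b | ∀ h ∈ H, A h b = b}
  mul_mem' := by
    intro a b ha hb h hh
    rw [map_mul, ha h hh, hb h hh]
  add_mem' := by
    intro a b ha hb h hh
    rw [map_add, ha h hh, hb h hh]
  algebraMap_mem' := fun a h _ => (A h).commutes a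

lemma mem_inv {H : Subgroup Γ} {b : PB k n m} : b ∈ inv A H ↔ ∀ h ∈ H, A h b = b := Iff.rfl

variable (hA : ∀ g i, A g (X (Sum.inl i)) = X (Sum.inl i))

include hA in
lemma A_ren (g : Γ) (f : MvPolynomial (Fin n) k) : A g (rename Sum.inl f) = rename Sum.inl f := by
  induction f using MvPolynomial.induction_on with
  | C a =>
    rw [rename_C]
    exact (A g).commutes a
  | add p q hp hq => rw [map_add, map_add, hp, hq]
  | mul_X p i hp => rw [map_mul, map_mul, hp, rename_X, hA]

/-- The inclusion of the polynomials in the first coordinates. -/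
noncomputable def iot (H : Subgroup Γ) : MvPolynomial (Fin n) k →ₐ[k] inv A H :=
  (rename Sum.inl).codRestrict (inv A H) fun f h _ => A_ren A hA h f

lemma coe_iot (H : Subgroup Γ) (f : MvPolynomial (Fin n) k) :
    (iot A hA H f : PB k n m) = rename Sum.inl f := rfl

lemma prod_mem_EI {C : Type u} [CommRing C] (x : Fin n → C) (w : Fin n → ℕ) {ι : Type}
    (s : Finset ι) (f : ι → C) (d : ℕ) (hf : ∀ i ∈ s, f i ∈ EI x w d) :
    ∏ i ∈ s, f i ∈ EI x w (s.card * d) := by
  classical
  induction s using Finset.induction_on with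
  | empty => rw [Finset.card_empty, Nat.zero_mul, EI_zero]; trivial
  | insert a s ha ih =>
    rw [Finset.prod_insert ha, Finset.card_insert_of_notMem ha, Nat.succ_mul, add_comm]
    exact mul_mem_EI x w (hf a (Finset.mem_insert_self _ _))
      (ih fun i hi => hf i (Finset.mem_insert_of_mem hi))

/-- Powers of invariants in the weighted ideals of the ring of invariants. -/
theorem pow_EI_inv (H : Subgroup Γ) [Finite H] (w : Fin n → ℕ) (d : ℕ) (a : inv A H)
    (ha : (a : PB k n m) ∈ EI (xs k n m) w d) :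
    a ^ (Nat.card H) ∈ EI (fun j => iot A hA H (X j)) w (Nat.card H * d) := by
  classical
  have _ := Fintype.ofFinite H
  obtain ⟨P, hP, hPa⟩ := exists_poly w ha
  let T : Γ → MvPolynomial (Fin n) (PB k n m) →+* MvPolynomial (Fin n) (PB k n m) :=
    fun h => MvPolynomial.map (A h : PB k n m →+* PB k n m)
  have hTT : ∀ g h Q, T g (T h Q) = T (g * h) Q := by
    intro g h Q
    change MvPolynomial.map _ (MvPolynomial.map _ Q) = MvPolynomial.map _ Q
    rw [MvPolynomial.map_map]
    have h1 : ((A g : PB k n m →+* PB k n m).comp (A h : PB k n m →+* PB k n m)) =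
        (A (g * h) : PB k n m →+* PB k n m) := RingHom.ext fun b => (A_mul A g h b).symm
    rw [h1]
  have hTE : ∀ h, ∀ Q ∈ EI (X : Fin n → MvPolynomial (Fin n) (PB k n m)) w d,
      T h Q ∈ EI (X : Fin n → MvPolynomial (Fin n) (PB k n m)) w d := by
    intro h Q hQ
    have h1 := map_mem_EI _ w (T h) hQ
    have h2 : (fun i => T h (X i : MvPolynomial (Fin n) (PB k n m))) = X := by
      ext1 i
      exact map_X _ _
    rwa [h2] at h1
  let N : MvPolynomial (Fin n) (PB k n m) := ∏ h : H, T h P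
  have hN1 : ∀ β ∈ N.support, Nat.card H * d ≤ ∑ i, β i * w i := by
    apply supp_EI w
    have h1 := prod_mem_EI (X : Fin n → MvPolynomial (Fin n) (PB k n m)) w
      (Finset.univ : Finset H) (fun h => T h P) d fun h _ => hTE h P hP
    rwa [Finset.card_univ, ← Nat.card_eq_fintype_card] at h1
  have hN2 : ∀ g ∈ H, T g N = N := by
    intro g hg
    change T g (∏ h : H, T h P) = _
    rw [map_prod]
    refine Fintype.prod_equiv (Equiv.mulLeft (⟨g, hg⟩ : H)) _ _ fun h => ?_
    rw [hTT]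
    rfl
  have hN2' : ∀ β, coeff β N ∈ inv A H := by
    intro β g hg
    have h1 := congrArg (coeff β) (hN2 g hg)
    change coeff β (MvPolynomial.map _ N) = _ at h1
    rw [coeff_map] at h1
    exact h1
  have hev : ∀ g, ∀ Q, eval (xs k n m) (T g Q) = A g (eval (xs k n m) Q) := by
    intro g Q
    have h1 := map_eval (A g : PB k n m →+* PB k n m) (xs k n m) Q
    have h2 : (A g : PB k n m →+* PB k n m) ∘ (xs k n m) = xs k n m := by
      ext1 i
      exact hA g i
    rw [h2] at h1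
    exact h1.symm
  have hN3 : eval (xs k n m) N = (a : PB k n m) ^ Nat.card H := by
    change eval (xs k n m) (∏ h : H, T h P) = _
    rw [map_prod]
    have h1 : ∀ h ∈ (Finset.univ : Finset H), eval (xs k n m) (T h P) = (a : PB k n m) := by
      intro h _
      rw [hev, hPa]
      exact a.2 h h.2
    rw [Finset.prod_congr rfl h1, Finset.prod_const, Finset.card_univ,
      ← Nat.card_eq_fintype_card]
  have h5 : a ^ Nat.card H = ∑ β ∈ N.support,
      (⟨coeff β N, hN2' β⟩ : inv A H) * ∏ j, (iot A hA H (X j)) ^ (β j) := by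
    apply Subtype.ext
    rw [eval_eq'] at hN3
    rw [SubmonoidClass.coe_pow, ← hN3, AddSubmonoidClass.coe_finsetSum]
    refine Finset.sum_congr rfl fun β _ => ?_
    change coeff β N * _ = coeff β N *
      ((∏ j, (iot A hA H (X j)) ^ (β j) : inv A H) : PB k n m)
    rw [SubmonoidClass.coe_finsetProd]
    congr 1
    refine Finset.prod_congr rfl fun j _ => ?_
    rw [SubmonoidClass.coe_pow, coe_iot, rename_X]
    rfl
  rw [h5]
  exact Ideal.sum_mem _ fun β hβ => Ideal.mul_mem_left _ _ (mono_mem _ w _ (hN1 β hβ))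

/-- An element of the group acts on the invariants of a normalized subgroup. -/
noncomputable def resH (H' : Subgroup Γ) (g : Γ) (hg : ∀ h ∈ H', g⁻¹ * h * g ∈ H') :
    inv A H' →ₐ[k] inv A H' :=
  ((A g).comp (inv A H').val).codRestrict (inv A H') fun c h hh => by
    change A h (A g c) = A g c
    rw [← A_mul]
    have h1 : h * g = g * (g⁻¹ * h * g) := by group
    rw [h1, A_mul, c.2 _ (hg h hh)]

lemma coe_resH (H' : Subgroup Γ) (g : Γ) (hg : ∀ h ∈ H', g⁻¹ * h * g ∈ H') (c : inv A H') :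
    (resH A H' g hg c : PB k n m) = A g c := rfl

/-- The same as an automorphism. -/
noncomputable def resG (H' : Subgroup Γ) (g : Γ) (hg : ∀ h ∈ H', g⁻¹ * h * g ∈ H')
    (hg' : ∀ h ∈ H', g * h * g⁻¹ ∈ H') : inv A H' ≃ₐ[k] inv A H' :=
  AlgEquiv.ofAlgHom (resH A H' g hg) (resH A H' g⁻¹ (by
    intro h hh
    rw [inv_inv]
    exact hg' h hh))
    (by
      apply AlgHom.ext
      intro c
      apply Subtype.ext
      change A g (A g⁻¹ c) = c
      rw [← A_mul, mul_inv_cancel, A_one])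
    (by
      apply AlgHom.ext
      intro c
      apply Subtype.ext
      change A g⁻¹ (A g c) = c
      rw [← A_mul, inv_mul_cancel, A_one])

lemma coe_resG (H' : Subgroup Γ) (g : Γ) (hg : ∀ h ∈ H', g⁻¹ * h * g ∈ H')
    (hg' : ∀ h ∈ H', g * h * g⁻¹ ∈ H') (c : inv A H') :
    (resG A H' g hg hg' c : PB k n m) = A g c := rfl

lemma coe_iter_resG (H' : Subgroup Γ) (g : Γ) (hg : ∀ h ∈ H', g⁻¹ * h * g ∈ H')
    (hg' : ∀ h ∈ H', g * h * g⁻¹ ∈ H') (j : ℕ) (c : inv A H') :
    ((resG A H' g hg hg')^[j] c : PB k n m) = A (g ^ j) c := by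
  induction j generalizing c with
  | zero => rw [pow_zero, A_one]; rfl
  | succ j ih => rw [Function.iterate_succ_apply, ih, coe_resG, ← A_mul, pow_succ]

include hA in
/-- **The step.** The group `H` has an additive character `e` with values in `ℤ/p`, and slices for
an element `g` which are invariant under the kernel of `e`. -/
theorem good_step {p : ℕ} (hp : p.Prime) (hpk : (p : k) = 0) (w : Fin n → ℕ)
    (H H' : Subgroup Γ) [Finite H'] (e : Γ → ZMod p) (he : ∀ x ∈ H, ∀ y ∈ H, e (x * y) = e x + e y)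
    (hH' : ∀ x, x ∈ H' ↔ x ∈ H ∧ e x = 0) (g : Γ) (hgH : g ∈ H) (hge : e g ≠ 0)
    (l μ : ℕ) (hl : 0 < l)
    (hdiv : ∀ d, ∀ b ∈ EI (xs k n m) w d, A g b - b ∈ EI (xs k n m) w (d + l))
    {J : Type} [Fintype J] (Δ : J → MvPolynomial (Fin n) k)
    (hΔ : ∀ j, IsWeightedHomogeneous w (Δ j) (μ + l))
    (hrad : ∀ s, 0 < w s → (X s : MvPolynomial (Fin n) k) ∈
      (Ideal.span (Set.range Δ)).radical)
    (hc : ∀ j, ∃ c ∈ EI (xs k n m) w μ, (∀ h ∈ H', A h c = c) ∧
      A g c - c = rename Sum.inl (Δ j))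
    (hG : Good k (isFilt_restr (isFilt_EI (xs k n m) w) (inv A H')))
    (hne : restr (EI (xs k n m) w) (inv A H') 1 ≠ ⊥) :
    Good k (isFilt_restr (isFilt_EI (xs k n m) w) (inv A H)) ∧
      restr (EI (xs k n m) w) (inv A H) 1 ≠ ⊥ := by
  have _ : Fact p.Prime := ⟨hp⟩
  have he1 : e 1 = 0 := by
    have h1 := he 1 H.one_mem 1 H.one_mem
    rw [mul_one] at h1
    exact (add_eq_left.1 h1.symm)
  have heinv : ∀ x ∈ H, e x⁻¹ = - e x := by
    intro x hx
    have h1 := he x hx x⁻¹ (H.inv_mem hx)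
    rw [mul_inv_cancel, he1] at h1
    exact (neg_eq_of_add_eq_zero_right h1.symm).symm
  have hepow : ∀ j : ℕ, e (g ^ j) = j * e g := by
    intro j
    induction j with
    | zero => rw [pow_zero, he1, Nat.cast_zero, zero_mul]
    | succ j ih =>
      rw [pow_succ, he _ (H.pow_mem hgH j) _ hgH, ih, Nat.cast_succ]
      ring
  have hgc : ∀ h ∈ H', g⁻¹ * h * g ∈ H' := by
    intro h hh
    obtain ⟨h1, h2⟩ := (hH' h).1 hh
    refine (hH' _).2 ⟨H.mul_mem (H.mul_mem (H.inv_mem hgH) h1) hgH, ?_⟩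
    rw [he _ (H.mul_mem (H.inv_mem hgH) h1) _ hgH, he _ (H.inv_mem hgH) _ h1, heinv g hgH, h2]
    ring
  have hgc' : ∀ h ∈ H', g * h * g⁻¹ ∈ H' := by
    intro h hh
    obtain ⟨h1, h2⟩ := (hH' h).1 hh
    refine (hH' _).2 ⟨H.mul_mem (H.mul_mem hgH h1) (H.inv_mem hgH), ?_⟩
    rw [he _ (H.mul_mem hgH h1) _ (H.inv_mem hgH), he _ hgH _ h1, heinv g hgH, h2]
    ring
  have hgp : g ^ p ∈ H' := by
    refine (hH' _).2 ⟨H.pow_mem hgH p, ?_⟩
    rw [hepow, ZMod.natCast_self, zero_mul]
  let C := inv A H'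
  let σ : C ≃ₐ[k] C := resG A H' g hgc hgc'
  obtain ⟨h3, h4⟩ := step_core w (EI (xs k n m) w) C (fun c => σ c - c) l μ
    (Nat.card H') Nat.card_pos (iot A hA H') (fun d f hf => ren_EI w hf)
    (fun d a ha => pow_EI_inv A hA H' w d a ha) Δ hΔ hrad
    (fun j => by
      obtain ⟨c, hc1, hc2, hc3⟩ := hc j
      exact ⟨⟨c, hc2⟩, hc1, Subtype.ext hc3⟩)
  refine good_sstep hp hpk (isFilt_EI (xs k n m) w) (C := C) (C' := inv A H)
    ⟨σ, l, ?_, hl, ?_, h3, h4, ?_⟩ hG hne
  · intro b
    apply Subtype.ext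
    rw [coe_iter_resG]
    exact b.2 _ hgp
  · intro d a ha
    exact hdiv d a ha
  · intro b
    constructor
    · intro h
      exact ⟨fun x hx => h x ((hH' x).1 hx).1, Subtype.ext (h g hgH)⟩
    · rintro ⟨h1, h2⟩ x hx
      have hgb : A g b = b := congrArg Subtype.val h2
      have hgj : ∀ j : ℕ, A (g ^ j) b = b := by
        intro j
        induction j with
        | zero => rw [pow_zero, A_one]
        | succ j ih => rw [pow_succ, A_mul, hgb, ih]
      -- `x = y * g ^ j` with `y` in the kernel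
      let j : ℕ := (e x * (e g)⁻¹).val
      have hj : ((j : ℕ) : ZMod p) = e x * (e g)⁻¹ := ZMod.natCast_zmod_val _
      have hy : x * (g ^ j)⁻¹ ∈ H' := by
        refine (hH' _).2 ⟨H.mul_mem hx (H.inv_mem (H.pow_mem hgH j)), ?_⟩
        rw [he _ hx _ (H.inv_mem (H.pow_mem hgH j)), heinv _ (H.pow_mem hgH j), hepow, hj,
          mul_assoc, inv_mul_cancel₀ hge, mul_one, add_neg_cancel]
      have h5 : x = (x * (g ^ j)⁻¹) * g ^ j := by group
      rw [h5, A_mul, hgj, h1 _ hy]

/-- Data for a step from a proper subgroup to a group. -/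
def Slices (A : Γ →* (PB k n m →ₐ[k] PB k n m)) (p : ℕ) (w : Fin n → ℕ) (H : Subgroup Γ) : Prop :=
  ∃ (e : Γ → ZMod p) (g : Γ) (l μ q : ℕ) (Δ : Fin q → MvPolynomial (Fin n) k),
    (∀ x ∈ H, ∀ y ∈ H, e (x * y) = e x + e y) ∧ g ∈ H ∧ e g ≠ 0 ∧ 0 < l ∧
    (∀ d, ∀ b ∈ EI (xs k n m) w d, A g b - b ∈ EI (xs k n m) w (d + l)) ∧
    (∀ j, IsWeightedHomogeneous w (Δ j) (μ + l)) ∧
    (∀ s, 0 < w s → (X s : MvPolynomial (Fin n) k) ∈ (Ideal.span (Set.range Δ)).radical) ∧
    ∀ j, ∃ c ∈ EI (xs k n m) w μ, (∀ h ∈ H, e h = 0 → A h c = c) ∧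
      A g c - c = rename Sum.inl (Δ j)

include hA in
/-- **The engine.** -/
theorem good_inv [Finite Γ] {p : ℕ} (hp : p.Prime) (hpk : (p : k) = 0) (w : Fin n → ℕ)
    (hw : ∃ i, 0 < w i)
    (hS : ∀ H : Subgroup Γ, (∀ h ∈ H, ∀ b, A h b = b) ∨ Slices A p w H) (H : Subgroup Γ) :
    Good k (isFilt_restr (isFilt_EI (xs k n m) w) (inv A H)) ∧
      restr (EI (xs k n m) w) (inv A H) 1 ≠ ⊥ := by
  induction hN : Nat.card H using Nat.strong_induction_on generalizing H with
  | _ N ih =>
    rcases hS H with h | ⟨e, g, l, μ, q, Δ, h1, h2, h3, h4, h5, h6, h7, h8⟩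
    · refine good_top (isFilt_EI (xs k n m) w) (good_B w) (one_ne_bot w hw) ?_
      exact top_unique fun b _ x hx => h x hx b
    · have he1 : e 1 = 0 := by
        have h9 := h1 1 H.one_mem 1 H.one_mem
        rw [mul_one] at h9
        exact (add_eq_left.1 h9.symm)
      have heinv : ∀ x ∈ H, e x⁻¹ = - e x := by
        intro x hx
        have h9 := h1 x hx x⁻¹ (H.inv_mem hx)
        rw [mul_inv_cancel, he1] at h9
        exact (neg_eq_of_add_eq_zero_right h9.symm).symm
      let H' : Subgroup Γ :=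
        { carrier := {x | x ∈ H ∧ e x = 0}
          mul_mem' := by
            rintro x y ⟨hx, hx'⟩ ⟨hy, hy'⟩
            exact ⟨H.mul_mem hx hy, by rw [h1 x hx y hy, hx', hy', add_zero]⟩
          one_mem' := ⟨H.one_mem, he1⟩
          inv_mem' := by
            rintro x ⟨hx, hx'⟩
            exact ⟨H.inv_mem hx, by rw [heinv x hx, hx', neg_zero]⟩ }
      have hlt : Nat.card H' < N := by
        have hle : H' ≤ H := fun x hx => hx.1
        rw [← hN]
        refine lt_of_le_of_ne (Subgroup.card_le_of_le hle) fun hcard => ?_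
        have h9 := Subgroup.eq_of_le_of_card_ge hle hcard.ge
        have h10 : g ∈ H' := by rw [h9]; exact h2
        exact h3 h10.2
      obtain ⟨h11, h12⟩ := ih _ hlt H' rfl
      refine good_step A hA hp hpk w H H' e h1 (fun x => Iff.rfl) g h2 h3 l μ h4 h5 Δ h6 h7
        (fun j => ?_) h11 h12
      obtain ⟨c, hc1, hc2, hc3⟩ := h8 j
      exact ⟨c, hc1, fun h hh => hc2 h hh.1 hh.2, hc3⟩

end grp

end Pool.Agent.Q2.RP
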