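import Mathlib
import Pool.Agent.Q43.RP.Stm
import Pool.Agent.Q2.RP.Comb

/-!
# Exceptional classes for multiquadratic CM fields (job SH3 of project RP of helper43)
-/

set_option autoImplicit false

namespace Pool.Agent.Q2.RP

open NumberField Pool.Agent.H204R3.CM Pool.Agent.W546.GHC Pool.Agent.W548.Sh Pool.Agent.Q43.RP
  Finset

open Classical in
/-- Counting: the types with a balanced character, up to the types with a stabilizer. -/
theorem core (h1 : S_SH1) {Γ : Type} [CommGroup Γ] [Fintype Γ] (c : Γ) (g : ℕ)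
    (hsq : ∀ x : Γ, x * x = 1) (hc : c ≠ 1) (hcard : Fintype.card Γ = 2 * g) (hg : 4 ≤ g)
    {X : Type*} (e : Γ → X) (he : Function.Bijective e) (Good : Set X → Prop)
    (hgood : ∀ (Φ : Set X) (T : Finset Γ), (∀ σ, σ ∈ T ↔ e σ ∈ Φ) →
      T ∈ Halves (fun x : Γ => c * x) →
      (∀ τ : Γ, (∀ x, x ∈ T ↔ τ * x ∈ T) → τ = 1) →
      (∃ χ : Γ →* ℤˣ, χ c = -1 ∧ ∑ x ∈ T, ((χ x : ℤˣ) : ℤ) = 0) → Good Φ) :
    (2 : ℝ) ^ g ≤ 5 * (({Φ : Set X | Good Φ}).ncard : ℝ) + 10 * g * 2 ^ (g / 2) := by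
  have key := h1 Γ c g hsq hc hcard hg
  set A := (Halves (fun x : Γ => c * x)).filter
      (fun T => ∃ χ : Γ →* ℤˣ, χ c = -1 ∧ ∑ x ∈ T, ((χ x : ℤˣ) : ℤ) = 0) with hA
  have hfinX : Finite X := Finite.of_surjective e he.2
  have h2 : (A \ NonSep c).card ≤ ({Φ : Set X | Good Φ}).ncard := by
    rw [← Set.ncard_coe_finset]
    refine Set.ncard_le_ncard_of_injOn (fun T => e '' (T : Set Γ)) ?_ ?_ (Set.toFinite _)
    · intro T hT
      rw [Finset.mem_coe, Finset.mem_sdiff, hA, Finset.mem_filter] at hT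
      obtain ⟨⟨hT1, hT2⟩, hT3⟩ := hT
      refine hgood _ T ?_ hT1 ?_ hT2
      · intro σ
        constructor
        · exact fun h => ⟨σ, Finset.mem_coe.2 h, rfl⟩
        · rintro ⟨σ', h, h'⟩
          rw [← he.1 h']
          exact Finset.mem_coe.1 h
      · intro τ hτ
        by_contra hne
        apply hT3
        unfold NonSep
        rw [Finset.mem_filter]
        exact ⟨hT1, τ, hne, hτ⟩
    · intro T _ T' _ h
      have h3 := he.1.image_injective h
      exact Finset.coe_injective h3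
  have h3 : A.card ≤ (A \ NonSep c).card + (NonSep c).card := Finset.card_le_card_sdiff_add_card
  have h4 := card_NonSep hsq hc g hcard
  have h5 : A.card ≤ ({Φ : Set X | Good Φ}).ncard + 2 * g * 2 ^ (g / 2) := by omega
  have h6 : (A.card : ℝ) ≤ (({Φ : Set X | Good Φ}).ncard : ℝ) + 2 * g * 2 ^ (g / 2) := by
    exact_mod_cast h5
  calc (2 : ℝ) ^ g ≤ 5 * (A.card : ℝ) := key
    _ ≤ 5 * ((({Φ : Set X | Good Φ}).ncard : ℝ) + 2 * g * 2 ^ (g / 2)) := by linarith
    _ = _ := by ring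

section fieldpart

variable {E : Type} [Field E] [NumberField E]

/-- The embeddings given by the Galois group. -/
def emb (j : E →+* ℂ) (σ : E ≃ₐ[ℚ] E) : E →+* ℂ := j.comp (σ : E →+* E)

theorem emb_apply (j : E →+* ℂ) (σ : E ≃ₐ[ℚ] E) (x : E) : emb j σ x = j (σ x) := rfl

theorem emb_injective (j : E →+* ℂ) : Function.Injective (emb j) := by
  intro σ τ h
  ext x
  exact j.injective (RingHom.congr_fun h x)

theorem emb_bijective [IsGalois ℚ E] (j : E →+* ℂ) : Function.Bijective (emb j) := by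
  classical
  rw [Fintype.bijective_iff_injective_and_card]
  refine ⟨emb_injective j, ?_⟩
  rw [Embeddings.card, ← Nat.card_eq_fintype_card, IsGalois.card_aut_eq_finrank]

/-- The complex conjugation as an automorphism over the rationals. -/
noncomputable def cc (E : Type) [Field E] [NumberField E] [IsCMField E] : E ≃ₐ[ℚ] E :=
  AlgEquiv.restrictScalars ℚ (IsCMField.complexConj E)

theorem cc_apply [IsCMField E] (x : E) : cc E x = IsCMField.complexConj E x := rfl

theorem cc_ne [IsCMField E] : cc E ≠ 1 := by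
  intro h
  apply IsCMField.complexConj_ne_one E
  ext x
  exact AlgEquiv.congr_fun h x

theorem conj_emb [IsCMField E] (j : E →+* ℂ) (σ : E ≃ₐ[ℚ] E) :
    ComplexEmbedding.conjugate (emb j σ) = emb j (cc E * σ) := by
  ext x
  rw [ComplexEmbedding.conjugate_coe_eq, emb_apply, emb_apply]
  exact (IsCMField.complexEmbedding_complexConj E j (σ x)).symm

end fieldpart

theorem sh3 : S_SH1 → S_SH2 → S_SH3 := by
  intro h1 h2 E _ _ _ _ g hfin hsq hg
  classical
  obtain ⟨j⟩ := (inferInstance : Nonempty (E →+* ℂ))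
  let inst : CommGroup (E ≃ₐ[ℚ] E) :=
    { (inferInstance : Group (E ≃ₐ[ℚ] E)) with
      mul_comm := by
        intro a b
        have ha : a⁻¹ = a := inv_eq_of_mul_eq_one_left (hsq a)
        have hb : b⁻¹ = b := inv_eq_of_mul_eq_one_left (hsq b)
        have hab : (a * b)⁻¹ = a * b := inv_eq_of_mul_eq_one_left (hsq (a * b))
        rw [← hab, mul_inv_rev, ha, hb] }
  have hcard : Fintype.card (E ≃ₐ[ℚ] E) = 2 * g := by
    rw [← Nat.card_eq_fintype_card, IsGalois.card_aut_eq_finrank, hfin]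
  refine core h1 (cc E) g hsq cc_ne hcard hg (emb j) (emb_bijective j) _ ?_
  rintro Φ T hT hTH hsep ⟨χ, hχ, h0⟩
  have hCM : IsCMType Φ := by
    intro φ
    obtain ⟨σ, rfl⟩ := (emb_bijective j).2 φ
    rw [conj_emb, ← hT, ← hT]
    exact mem_Halves.1 hTH σ
  refine ⟨hCM, ?_⟩
  obtain ⟨m, hm⟩ := even_g (cc E) hsq χ hχ g hcard (by omega)
  subst hm
  have hm0 : 0 < m := by omega
  rw [Nat.mul_div_cancel_left m (by norm_num : 0 < 2)]
  have hker : Fintype.card χ.ker = 2 * m := by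
    rw [← Nat.card_eq_fintype_card]
    exact card_ker (cc E) χ hχ _ hcard
  let en : Fin (2 * m) ≃ χ.ker := (Fintype.equivFinOfCardEq hker).symm
  have hgal : ∀ s : ℂ ≃+* ℂ, ∃ h : E ≃ₐ[ℚ] E, ∀ σ : E ≃ₐ[ℚ] E,
      (s : ℂ →+* ℂ).comp (emb j σ) = emb j (h * σ) := by
    intro s
    obtain ⟨h, hh⟩ := Pool.Agent.H977R3.CM.exists_gal j s
    refine ⟨h, fun σ => ?_⟩
    ext x
    exact hh (σ x)
  have hgal' : ∀ h : E ≃ₐ[ℚ] E, ∃ s : ℂ ≃+* ℂ, ∀ σ : E ≃ₐ[ℚ] E,
      (s : ℂ →+* ℂ).comp (emb j σ) = emb j (h * σ) := by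
    intro h
    obtain ⟨s, hs⟩ := Pool.Agent.H977R3.CM.exists_aut j (h : E ≃+* E)
    refine ⟨s, fun σ => ?_⟩
    ext x
    exact hs (σ x)
  refine h2 (ι := Unit) (J := Unit) (fun _ => E) (fun _ => Φ) (fun _ => ()) (fun _ => hCM) ?_
    (fun u => ⟨(), rfl⟩) m hm0 (fun l => ⟨(), emb j (en l).1⟩) ?_ ?_ ?_
  · -- separated
    rintro ⟨⟨⟩, φ⟩ ⟨⟨⟩, ψ⟩ h
    obtain ⟨a, rfl⟩ := (emb_bijective j).2 φ
    obtain ⟨b, rfl⟩ := (emb_bijective j).2 ψ
    have h3 : b * a⁻¹ = 1 := by
      apply hsep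
      intro x
      obtain ⟨s, hs⟩ := hgal' (x * a⁻¹)
      have h4 := h s
      simp only [] at h4
      rw [hs, hs, ← hT, ← hT, inv_mul_cancel_right] at h4
      rw [h4]
      have h5 : x * a⁻¹ * b = b * a⁻¹ * x := by
        rw [mul_comm, ← mul_assoc, mul_right_comm]
      rw [h5]
    have h6 : b = a := mul_inv_eq_one.1 h3
    rw [h6]
  · intro l l' h
    have h3 : emb j (en l).1 = emb j (en l').1 := eq_of_heq (Sigma.mk.inj_iff.1 h).2
    exact en.injective (Subtype.ext (emb_injective j h3))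
  · intro l l' h
    have h3 : emb j (en l).1 = ComplexEmbedding.conjugate (emb j (en l').1) :=
      eq_of_heq (Sigma.mk.inj_iff.1 h).2
    rw [conj_emb] at h3
    have h4 := emb_injective j h3
    have h5 := congrArg χ h4
    rw [map_mul, hχ, MonoidHom.mem_ker.1 (en l).2, MonoidHom.mem_ker.1 (en l').2] at h5
    exact absurd h5 (by decide)
  · intro s
    obtain ⟨h, hh⟩ := hgal s
    have h3 := balanced (cc E) hTH χ hχ h0 h
    rw [← Equiv.sum_comp en] at h3
    rw [← h3]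
    refine Finset.sum_congr rfl fun l _ => ?_
    have h4 : (s : ℂ →+* ℂ).comp (emb j (en l).1) ∈ Φ ↔ h * (en l).1 ∈ T := by
      rw [hh, hT]
    by_cases h5 : h * (en l).1 ∈ T
    · rw [if_pos h5]
      exact if_pos (h4.2 h5)
    · rw [if_neg h5]
      exact if_neg (fun h6 => h5 (h4.1 h6))

end Pool.Agent.Q2.RP
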