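import Pool.Agent.Q2.RP.Eng

set_option autoImplicit false
set_option linter.unusedSectionVars false

open MvPolynomial AlgebraicGeometry CategoryTheory Pool.Agent.H920R2 Pool.Agent.H519R3.RS
open Pool.Agent.H519R3.RE

universe u v

namespace Pool.Agent.Q2.RP

section gen

variable {k : Type u} [Field k] {n m : ℕ}

lemma gen_mem (f : PB k n m →ₐ[k] PB k n m) (hf : ∀ i, f (X (Sum.inl i)) = X (Sum.inl i))
    (w : Fin n → ℕ) (L : ℕ)
    (h : ∀ t, f (X (Sum.inr t)) - X (Sum.inr t) ∈ EI (xs k n m) w L) (b : PB k n m) :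
    f b - b ∈ EI (xs k n m) w L := by
  induction b using MvPolynomial.induction_on with
  | C a =>
    have h1 : f (C a) = C a := f.commutes a
    rw [h1, sub_self]
    exact Ideal.zero_mem _
  | add p q hp hq =>
    rw [map_add, add_sub_add_comm]
    exact Ideal.add_mem _ hp hq
  | mul_X p i hp =>
    have h1 : f (p * X i) - p * X i = f p * (f (X i) - X i) + (f p - p) * X i := by
      rw [map_mul]; ring
    rw [h1]
    refine Ideal.add_mem _ (Ideal.mul_mem_left _ _ ?_) (Ideal.mul_mem_right _ _ hp)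
    rcases i with i | t
    · rw [hf, sub_self]; exact Ideal.zero_mem _
    · exact h t

lemma gen_div (f : PB k n m →ₐ[k] PB k n m) (hf : ∀ i, f (X (Sum.inl i)) = X (Sum.inl i))
    (w : Fin n → ℕ) (L : ℕ)
    (h : ∀ t, f (X (Sum.inr t)) - X (Sum.inr t) ∈ EI (xs k n m) w L)
    (d : ℕ) (b : PB k n m) (hb : b ∈ EI (xs k n m) w d) :
    f b - b ∈ EI (xs k n m) w (d + L) := by
  have hb2 := hb
  unfold EI at hb2
  induction hb2 using Submodule.span_induction with
  | mem y hy =>
    obtain ⟨α, hα, rfl⟩ := hy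
    have h1 : f (∏ i, xs k n m i ^ α i) = ∏ i, xs k n m i ^ α i := by
      rw [map_prod]
      exact Finset.prod_congr rfl fun i _ => by rw [map_pow]; congr 1; exact hf i
    rw [h1, sub_self]
    exact Ideal.zero_mem _
  | zero => rw [map_zero, sub_self]; exact Ideal.zero_mem _
  | add y z hy' hz' hy hz =>
    rw [map_add, add_sub_add_comm]
    exact Ideal.add_mem _ (hy hy') (hz hz')
  | smul c y hy' hy =>
    have h1 : f (c • y) - c • y = f c * (f y - y) + y * (f c - c) := by
      rw [smul_eq_mul, map_mul]; ring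
    rw [h1]
    exact Ideal.add_mem _ (Ideal.mul_mem_left _ _ (hy hy'))
      (mul_mem_EI _ w hy' (gen_mem f hf w L h c))

end gen

/-- The positions above the diagonal of `q` matrices of size `N`. -/
abbrev Idx (q N : ℕ) : Type := Fin q × {ij : Fin N × Fin N // ij.1 < ij.2}

/-- Upper unitriangular matrices. -/
def UT {N : ℕ} {R : Type*} [CommRing R] (M : Matrix (Fin N) (Fin N) R) : Prop :=
  (∀ i j, j < i → M i j = 0) ∧ ∀ i, M i i = 1

lemma UT.one {N : ℕ} {R : Type*} [CommRing R] : UT (1 : Matrix (Fin N) (Fin N) R) :=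
  ⟨fun _ _ h => Matrix.one_apply_ne h.ne', fun i => Matrix.one_apply_eq i⟩

lemma UT.mul {N : ℕ} {R : Type*} [CommRing R] {M M' : Matrix (Fin N) (Fin N) R} (h : UT M)
    (h' : UT M') : UT (M * M') := by
  constructor
  · intro i j hij
    rw [Matrix.mul_apply]
    refine Finset.sum_eq_zero fun r _ => ?_
    rcases lt_or_ge r i with h1 | h1
    · rw [h.1 i r h1, zero_mul]
    · rw [h'.1 r j (lt_of_lt_of_le hij h1), mul_zero]
  · intro i
    rw [Matrix.mul_apply, Finset.sum_eq_single i]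
    · rw [h.2, h'.2, one_mul]
    · intro r _ hr
      rcases lt_or_gt_of_ne hr with h1 | h1
      · rw [h.1 i r h1, zero_mul]
      · rw [h'.1 r i h1, mul_zero]
    · intro h1
      exact absurd (Finset.mem_univ i) h1

lemma UT.map {N : ℕ} {R S : Type*} [CommRing R] [CommRing S] (f : R →+* S)
    {M : Matrix (Fin N) (Fin N) R} (h : UT M) : UT (M.map f) :=
  ⟨fun i j hij => by rw [Matrix.map_apply, h.1 i j hij, map_zero],
    fun i => by rw [Matrix.map_apply, h.2, map_one]⟩

section uni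

variable {k : Type u} [Field k] {n m q N : ℕ} (ε : Fin m ≃ Idx q N)
  (v : Fin q → MvPolynomial (Fin n) k)

/-- The generic unitriangular matrices. -/
noncomputable def GM (a : Fin q) : Matrix (Fin N) (Fin N) (PB k n m) :=
  Matrix.of fun i j => if h : i < j then X (Sum.inr (ε.symm (a, ⟨(i, j), h⟩)))
    else if i = j then 1 else 0

/-- The scaled matrices. -/
noncomputable def Lam (a : Fin q) (M : Matrix (Fin N) (Fin N) k) :
    Matrix (Fin N) (Fin N) (PB k n m) :=
  Matrix.of fun i j => rename Sum.inl (v a ^ ((j : ℕ) - (i : ℕ))) * C (M i j)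

/-- The left multiplication by the scaled matrices. -/
noncomputable def act (M : Matrix (Fin N) (Fin N) k) : PB k n m →ₐ[k] PB k n m :=
  aeval (Sum.elim (fun i => X (Sum.inl i)) fun t =>
    (Lam v (ε t).1 M * GM ε (ε t).1 : Matrix (Fin N) (Fin N) (PB k n m))
      (ε t).2.1.1 (ε t).2.1.2)

lemma act_inl (M : Matrix (Fin N) (Fin N) k) (i : Fin n) :
    act ε v M (X (Sum.inl i)) = X (Sum.inl i) := by
  unfold act
  rw [aeval_X]
  rfl

lemma act_inr (M : Matrix (Fin N) (Fin N) k) (t : Fin m) :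
    act ε v M (X (Sum.inr t)) =
      (Lam v (ε t).1 M * GM ε (ε t).1 : Matrix (Fin N) (Fin N) (PB k n m))
        (ε t).2.1.1 (ε t).2.1.2 := by
  unfold act
  rw [aeval_X]
  rfl

lemma act_ren (M : Matrix (Fin N) (Fin N) k) (f : MvPolynomial (Fin n) k) :
    act ε v M (rename Sum.inl f) = rename Sum.inl f := by
  induction f using MvPolynomial.induction_on with
  | C a =>
    rw [rename_C]
    exact (act ε v M).commutes a
  | add p q hp hq => rw [map_add, map_add, hp, hq]
  | mul_X p i hp => rw [map_mul, map_mul, hp, rename_X, act_inl]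

lemma act_C (M : Matrix (Fin N) (Fin N) k) (a : k) : act ε v M (C a) = C a :=
  (act ε v M).commutes a

lemma GM_lt (a : Fin q) {i j : Fin N} (h : i < j) :
    GM (k := k) (n := n) ε a i j = X (Sum.inr (ε.symm (a, ⟨(i, j), h⟩))) := by
  unfold GM
  rw [Matrix.of_apply, dif_pos h]

lemma GM_eq (a : Fin q) (i : Fin N) : GM (k := k) (n := n) ε a i i = 1 := by
  unfold GM
  rw [Matrix.of_apply, dif_neg (lt_irrefl i), if_pos rfl]

lemma GM_gt (a : Fin q) {i j : Fin N} (h : j < i) : GM (k := k) (n := n) ε a i j = 0 := by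
  unfold GM
  rw [Matrix.of_apply, dif_neg (lt_asymm h), if_neg h.ne']

lemma Lam_gt (a : Fin q) {M : Matrix (Fin N) (Fin N) k} (hM : UT M) {i j : Fin N} (h : j < i) :
    Lam (m := m) v a M i j = 0 := by
  unfold Lam
  rw [Matrix.of_apply, hM.1 i j h, C_0, mul_zero]

lemma Lam_eq (a : Fin q) {M : Matrix (Fin N) (Fin N) k} (hM : UT M) (i : Fin N) :
    Lam (m := m) v a M i i = 1 := by
  unfold Lam
  rw [Matrix.of_apply, hM.2, C_1, mul_one, Nat.sub_self, pow_zero, map_one]

lemma act_GM (M : Matrix (Fin N) (Fin N) k) (hM : UT M) (a : Fin q) (i j : Fin N) :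
    act ε v M (GM ε a i j) =
      (Lam v a M * GM ε a : Matrix (Fin N) (Fin N) (PB k n m)) i j := by
  rcases lt_trichotomy i j with h | h | h
  · rw [GM_lt ε a h, act_inr, Equiv.apply_symm_apply]
  · subst h
    rw [GM_eq, map_one, Matrix.mul_apply, Finset.sum_eq_single i]
    · rw [Lam_eq v a hM, GM_eq, one_mul]
    · intro r _ hr
      rcases lt_or_gt_of_ne hr with h1 | h1
      · rw [Lam_gt v a hM h1, zero_mul]
      · rw [GM_gt ε a h1, mul_zero]
    · intro h1
      exact absurd (Finset.mem_univ i) h1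
  · rw [GM_gt ε a h, map_zero, Matrix.mul_apply]
    refine (Finset.sum_eq_zero fun r _ => ?_).symm
    rcases lt_or_ge r i with h1 | h1
    · rw [Lam_gt v a hM h1, zero_mul]
    · rw [GM_gt ε a (lt_of_lt_of_le h h1), mul_zero]

lemma Lam_mul (a : Fin q) {M M' : Matrix (Fin N) (Fin N) k} (hM : UT M) (hM' : UT M') :
    Lam (m := m) v a (M * M') = Lam v a M * Lam v a M' := by
  ext1 i j
  rw [Matrix.mul_apply]
  unfold Lam
  rw [Matrix.of_apply, Matrix.mul_apply, map_sum, Finset.mul_sum]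
  refine Finset.sum_congr rfl fun r _ => ?_
  rw [Matrix.of_apply, Matrix.of_apply, C_mul]
  rcases lt_or_ge r i with h1 | h1
  · rw [hM.1 i r h1, C_0]
    ring
  · rcases lt_or_ge j r with h2 | h2
    · rw [hM'.1 r j h2, C_0]
      ring
    · have h3 : (j : ℕ) - (i : ℕ) = ((r : ℕ) - (i : ℕ)) + ((j : ℕ) - (r : ℕ)) := by
        have h4 : (i : ℕ) ≤ r := h1
        have h5 : (r : ℕ) ≤ j := h2
        omega
      rw [h3, pow_add, map_mul]
      ring

lemma act_act {M M' : Matrix (Fin N) (Fin N) k} (hM : UT M) (hM' : UT M') (b : PB k n m) :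
    act ε v M (act ε v M' b) = act ε v (M' * M) b := by
  have h1 : (act ε v M).comp (act ε v M') = act ε v (M' * M) := by
    apply MvPolynomial.algHom_ext
    intro i
    rw [AlgHom.comp_apply]
    rcases i with i | t
    · rw [act_inl, act_inl, act_inl]
    · rw [act_inr, act_inr, Lam_mul v _ hM' hM, Matrix.mul_assoc, Matrix.mul_apply, map_sum,
        Matrix.mul_apply]
      refine Finset.sum_congr rfl fun r _ => ?_
      rw [map_mul, act_GM ε v M hM]
      congr 1
      unfold Lam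
      rw [Matrix.of_apply, map_mul, act_ren, act_C]
  rw [← h1]
  rfl

lemma act_one (b : PB k n m) : act ε v (1 : Matrix (Fin N) (Fin N) k) b = b := by
  have h1 : act ε v (1 : Matrix (Fin N) (Fin N) k) = AlgHom.id k _ := by
    apply MvPolynomial.algHom_ext
    intro i
    rcases i with i | t
    · rw [act_inl]; rfl
    · have h2 : Lam (m := m) v (ε t).1 (1 : Matrix (Fin N) (Fin N) k) = 1 := by
        ext1 i j
        unfold Lam
        rw [Matrix.of_apply]
        by_cases h : i = j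
        · rw [h, Matrix.one_apply_eq, Matrix.one_apply_eq, Nat.sub_self, pow_zero, map_one, C_1,
            one_mul]
        · rw [Matrix.one_apply_ne h, Matrix.one_apply_ne h, C_0, mul_zero]
      rw [act_inr, h2, one_mul, GM_lt ε _ (ε t).2.2]
      change X (Sum.inr (ε.symm (ε t))) = _
      rw [Equiv.symm_apply_apply]
      rfl
  rw [h1]
  rfl

/-- The action of a group of unitriangular matrices. -/
noncomputable def actH {Γ : Type} [Group Γ] (ρ : Γ →* Matrix (Fin N) (Fin N) k)
    (hρ : ∀ g, UT (ρ g)) : Γ →* (PB k n m →ₐ[k] PB k n m) where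
  toFun g := act ε v (ρ g⁻¹)
  map_one' := by
    apply AlgHom.ext
    intro b
    rw [inv_one, map_one]
    exact act_one ε v b
  map_mul' g h := by
    apply AlgHom.ext
    intro b
    rw [mul_inv_rev, map_mul]
    exact (act_act ε v (hρ g⁻¹) (hρ h⁻¹) b).symm

lemma Lam_mem (w : Fin n → ℕ) (l : ℕ) (hv : ∀ a, IsWeightedHomogeneous w (v a) l) (a : Fin q)
    (M : Matrix (Fin N) (Fin N) k) (i j : Fin N) :
    Lam (m := m) v a M i j ∈ EI (xs k n m) w (((j : ℕ) - (i : ℕ)) * l) := by
  unfold Lam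
  rw [Matrix.of_apply]
  refine Ideal.mul_mem_right _ _ (ren_EI w ?_)
  exact pow_mem_EI _ w (hom_mem_EI w (hv a)) _

/-- The matrix has depth at least `d`. -/
def Dep (d : ℕ) {R : Type*} [CommRing R] (M : Matrix (Fin N) (Fin N) R) : Prop :=
  ∀ i j : Fin N, i < j → (j : ℕ) - (i : ℕ) < d → M i j = 0

lemma act_div (w : Fin n → ℕ) (l : ℕ) (hv : ∀ a, IsWeightedHomogeneous w (v a) l) (d : ℕ)
    {M : Matrix (Fin N) (Fin N) k} (hM : UT M) (hd : Dep d M) (e : ℕ) (b : PB k n m)
    (hb : b ∈ EI (xs k n m) w e) : act ε v M b - b ∈ EI (xs k n m) w (e + d * l) := by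
  refine gen_div (act ε v M) (act_inl ε v M) w (d * l) (fun t => ?_) e b hb
  have h1 : (X (Sum.inr t) : PB k n m) = GM ε (ε t).1 (ε t).2.1.1 (ε t).2.1.2 := by
    rw [GM_lt ε _ (ε t).2.2]
    change _ = X (Sum.inr (ε.symm (ε t)))
    rw [Equiv.symm_apply_apply]
  rw [act_inr, Matrix.mul_apply, ← Finset.add_sum_erase _ _ (Finset.mem_univ (ε t).2.1.1),
    Lam_eq v _ hM, one_mul, ← h1, add_sub_cancel_left]
  refine Ideal.sum_mem _ fun r hr => Ideal.mul_mem_right _ _ ?_
  have hr' := (Finset.mem_erase.1 hr).1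
  rcases lt_or_gt_of_ne hr' with h2 | h2
  · rw [Lam_gt v _ hM h2]
    exact Ideal.zero_mem _
  · by_cases h3 : (r : ℕ) - ((ε t).2.1.1 : ℕ) < d
    · unfold Lam
      rw [Matrix.of_apply, hd _ _ h2 h3, C_0, mul_zero]
      exact Ideal.zero_mem _
    · exact EI_anti _ w (Nat.mul_le_mul_right l (not_lt.1 h3)) (Lam_mem v w l hv _ M _ _)

/-- The slices. -/
lemma act_slice {M : Matrix (Fin N) (Fin N) k} (hM : UT M) (d : ℕ) (hd : Dep d M) (a : Fin q)
    (i j : Fin N) (hij : i < j) (hdij : (j : ℕ) - (i : ℕ) = d) :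
    act ε v M (GM ε a i j) - GM ε a i j = rename Sum.inl (C (M i j) * v a ^ d) := by
  rw [act_GM ε v M hM, Matrix.mul_apply, ← Finset.add_sum_erase _ _ (Finset.mem_univ i),
    Lam_eq v a hM, one_mul, add_sub_cancel_left, Finset.sum_eq_single j]
  · rw [GM_eq, mul_one]
    unfold Lam
    rw [Matrix.of_apply, hdij, map_mul, rename_C, mul_comm]
  · intro r hr hrj
    have hr' := (Finset.mem_erase.1 hr).1
    rcases lt_or_gt_of_ne hr' with h2 | h2
    · rw [Lam_gt v _ hM h2, zero_mul]
    · rcases lt_or_gt_of_ne hrj with h3 | h3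
      · unfold Lam
        have h4 : (i : ℕ) < r := h2
        have h5 : (r : ℕ) < j := h3
        rw [Matrix.of_apply, hd _ _ h2 (by omega), C_0, mul_zero, zero_mul]
      · rw [GM_gt ε a h3, mul_zero]
  · intro h
    exact absurd (Finset.mem_erase.2 ⟨hij.ne', Finset.mem_univ j⟩) h

end uni

section main

variable {k : Type u} [Field k] {n m q N : ℕ} (ε : Fin m ≃ Idx q N)
  (v : Fin q → MvPolynomial (Fin n) k)

/-- **The rings of invariants of groups of unitriangular matrices over the prime field are good.** -/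
theorem good_uni {Γ : Type} [Group Γ] [Finite Γ] (p : ℕ) [Fact p.Prime] [CharP k p]
    (ρ : Γ →* Matrix (Fin N) (Fin N) (ZMod p)) (hρ : ∀ g, UT (ρ g))
    (ρ' : Γ →* Matrix (Fin N) (Fin N) k)
    (hρρ' : ∀ g, ρ' g = (ρ g).map (ZMod.castHom (dvd_refl p) k)) (hρ' : ∀ g, UT (ρ' g))
    (w : Fin n → ℕ) (hw : ∃ i, 0 < w i) (l : ℕ) (hl : 0 < l)
    (hv : ∀ a, IsWeightedHomogeneous w (v a) l)
    (hV : ∀ (K : Type u) [Field K] [Algebra k K] (z : Fin n → K), (∃ i, 0 < w i ∧ z i ≠ 0) →
      ∃ a, aeval z (v a) ≠ 0) (H : Subgroup Γ) :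
    Good k (isFilt_restr (isFilt_EI (xs k n m) w) (inv (actH ε v ρ' hρ') H)) ∧
      restr (EI (xs k n m) w) (inv (actH ε v ρ' hρ') H) 1 ≠ ⊥ := by
  classical
  have hp : p.Prime := Fact.out
  have hpk : (p : k) = 0 := CharP.cast_eq_zero k p
  have hcast : Function.Injective (ZMod.castHom (dvd_refl p) k) :=
    (ZMod.castHom (dvd_refl p) k).injective
  refine good_inv (actH ε v ρ' hρ') (fun g i => act_inl ε v _ i) hp hpk w hw ?_ H
  intro H
  by_cases hex : ∃ d : ℕ, ∃ h ∈ H, ∃ i j : Fin N, i < j ∧ (j : ℕ) - (i : ℕ) = d ∧ ρ h i j ≠ 0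
  · right
    obtain ⟨h, hh, i, j, hij, hdij, hne⟩ := Nat.find_spec hex
    set d := Nat.find hex with hd
    have hdep : ∀ x ∈ H, Dep d (ρ x) := by
      intro x hx i' j' hij' hlt
      by_contra hne'
      exact Nat.find_min hex hlt ⟨x, hx, i', j', hij', rfl, hne'⟩
    have hdep' : ∀ x ∈ H, Dep d (ρ' x) := by
      intro x hx i' j' hij' hlt
      rw [hρρ', Matrix.map_apply, hdep x hx i' j' hij' hlt, map_zero]
    have hadd : ∀ x ∈ H, ∀ y ∈ H, ρ (x * y) i j = ρ x i j + ρ y i j := by
      intro x hx y hy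
      rw [map_mul, Matrix.mul_apply, ← Finset.add_sum_erase _ _ (Finset.mem_univ i),
        (hρ x).2, one_mul, Finset.sum_eq_single j, (hρ y).2, mul_one, add_comm]
      · intro r hr hrj
        have hr' := (Finset.mem_erase.1 hr).1
        rcases lt_or_gt_of_ne hr' with h2 | h2
        · rw [(hρ x).1 _ _ h2, zero_mul]
        · rcases lt_or_gt_of_ne hrj with h3 | h3
          · have h4 : (i : ℕ) < r := h2
            have h5 : (r : ℕ) < j := h3
            rw [hdep x hx _ _ h2 (by omega), zero_mul]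
          · rw [(hρ y).1 _ _ h3, mul_zero]
      · intro h
        exact absurd (Finset.mem_erase.2 ⟨hij.ne', Finset.mem_univ j⟩) h
    have he1 : ρ 1 i j = 0 := by
      rw [map_one, Matrix.one_apply_ne hij.ne]
    have heinv : ∀ x ∈ H, ρ x⁻¹ i j = - ρ x i j := by
      intro x hx
      have h9 := hadd x hx x⁻¹ (H.inv_mem hx)
      rw [mul_inv_cancel, he1] at h9
      exact (neg_eq_of_add_eq_zero_right h9.symm).symm
    have hs0 : (ZMod.castHom (dvd_refl p) k) (ρ h i j) ≠ 0 := by
      intro h1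
      exact hne ((map_eq_zero_iff _ hcast).1 h1)
    have hact : ∀ x ∈ H, ∀ a, act ε v (ρ' x) (GM ε a i j) - GM ε a i j =
        rename Sum.inl (C (ZMod.castHom (dvd_refl p) k (ρ x i j)) * v a ^ d) := by
      intro x hx a
      rw [act_slice ε v (hρ' x) d (hdep' x hx) a i j hij hdij, hρρ', Matrix.map_apply]
    have hdpos : 0 < d := by
      have h1 : (i : ℕ) < j := hij
      omega
    refine ⟨fun x => ρ x i j, h⁻¹, d * l, 0, q,
      fun a => C (ZMod.castHom (dvd_refl p) k (ρ h i j)) * v a ^ d, hadd, H.inv_mem hh, ?_,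
      Nat.mul_pos hdpos hl, ?_, ?_, ?_, ?_⟩
    · change ρ h⁻¹ i j ≠ 0
      rw [heinv h hh]
      exact neg_ne_zero.2 hne
    · intro e b hb
      change act ε v (ρ' h⁻¹⁻¹) b - b ∈ _
      rw [inv_inv]
      exact act_div ε v w l hv d (hρ' h) (hdep' h hh) e b hb
    · intro a
      have h1 := (isWeightedHomogeneous_C w (ZMod.castHom (dvd_refl p) k (ρ h i j))).mul
        ((hv a).pow d)
      rw [zero_add] at h1 ⊢
      simpa using h1
    · intro s hs
      exact zero_rad w v hV _ hs0 d s hs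
    · intro a
      refine ⟨GM ε a i j, by rw [EI_zero]; trivial, ?_, ?_⟩
      · intro x hx hx0
        change act ε v (ρ' x⁻¹) (GM ε a i j) = _
        have h1 := hact x⁻¹ (H.inv_mem hx) a
        rw [heinv x hx] at h1
        have h2 : ρ x i j = 0 := hx0
        rw [h2, neg_zero, map_zero, C_0, zero_mul, map_zero, sub_eq_zero] at h1
        exact h1
      · change act ε v (ρ' h⁻¹⁻¹) (GM ε a i j) - _ = _
        rw [inv_inv]
        exact hact h hh a
  · left
    push Not at hex
    intro x hx b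
    have h1 : ρ' x⁻¹ = 1 := by
      ext1 i j
      rcases lt_trichotomy i j with h | h | h
      · rw [hρρ', Matrix.map_apply, hex _ x⁻¹ (H.inv_mem hx) i j h rfl, map_zero,
          Matrix.one_apply_ne h.ne]
      · rw [h, (hρ' _).2, Matrix.one_apply_eq]
      · rw [(hρ' _).1 _ _ h, Matrix.one_apply_ne h.ne']
    change act ε v (ρ' x⁻¹) b = b
    rw [h1, act_one]

end main

end Pool.Agent.Q2.RP
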